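import Pool.Agent.H87.SD.TYP
import Pool.Agent.H98.SD.TargetsM

/-!
# MP_e37c09_lc, board SecondDichotomy: row TYM, the positive types of a short sequence
-/

open Ordinal Cardinal Order Set
open _root_.HD _root_.HD.SD
open scoped ZFSet

universe u

namespace Pool.Agent.H87.SD

theorem pf_TYM (hDXP : T_DXP.{u}) (hDXD : T_DXD.{u}) (hFEM : T_FEM.{u}) : T_TYM.{u} := by
  intro en t L hS x hx M _ _ μ hspl P hP w τ hτ
  exact core hDXP hDXD en t L hS x hx M.ord μ (hFEM en hS.hen μ _ x _ hspl) P hP w τ hτ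

end Pool.Agent.H87.SD
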