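import Pool.Agent.H98.SD.Lib

/-!
# MP_e37c09_lc, board SecondDichotomy: row TYP, the positive types of a short sequence
-/

open Ordinal Cardinal Order Set
open _root_.HD _root_.HD.SD
open scoped ZFSet

universe u

namespace Pool.Agent.H87.SD

open HD.NF (w0)

/-- the type predicate: `u 0` is in the piece of `u 1` -/
def QT (t : Ordinal.{u} → Ordinal.{u} → Ordinal.{u})
    (P : ZFSet.{u} → (ℕ → Ordinal.{u}) → Prop) (τ : Ordinal.{u}) (x : ZFSet.{u})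
    (v : ℕ → Ordinal.{u}) : Prop :=
  ∀ i < τ, (P x (cns (v 0) (cns i fun n => v (n + 2))) ↔ i ∈ dec t x (v 1))

theorem dx_QT (hDXD : T_DXD.{u}) {t : Ordinal.{u} → Ordinal.{u} → Ordinal.{u}} (ht : PF t)
    {P : ZFSet.{u} → (ℕ → Ordinal.{u}) → Prop} (hP : DX P) (τ : Ordinal.{u}) :
    DX (QT t P τ) := by
  refine DX.allLtc (S := fun a x v => P x (cns (v 0) (cns a fun n => v (n + 2))) ↔
    a ∈ dec t x (v 1)) τ ?_
  have h1 : DX fun x w => P x (cns (w 1) (cns (w 0) fun n => w (n + 2 + 1))) := by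
    refine (hP.ren fun n => if n = 0 then 1 else if n = 1 then 0 else n + 1).congr fun x w => ?_
    have : cns (w 1) (cns (w 0) fun n => w (n + 2 + 1)) =
        fun n => w (if n = 0 then 1 else if n = 1 then 0 else n + 1) := by
      funext n
      rcases n with _ | _ | n <;> rfl
    rw [this]
  have h2 : DX fun x w => w 0 ∈ dec t x (w 2) :=
    (hDXD t ht).ren fun n => if n = 0 then 0 else 2
  exact h1.iff h2

/-- the codes of the positive types -/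
def ST (t : Ordinal.{u} → Ordinal.{u} → Ordinal.{u})
    (P : ZFSet.{u} → (ℕ → Ordinal.{u}) → Prop) (τ l μ κ : Ordinal.{u}) (x : ZFSet.{u})
    (v : ℕ → Ordinal.{u}) : Prop :=
  v 0 < l ∧ Pos μ κ {b | QT t P τ x (cns b v)} ∧
    ∀ ξ' < v 0, ¬ ∀ a < τ, (a ∈ dec t x ξ' ↔ a ∈ dec t x (v 0))

theorem dx_ST (hDXP : T_DXP.{u}) (hDXD : T_DXD.{u})
    {t : Ordinal.{u} → Ordinal.{u} → Ordinal.{u}} (ht : PF t)
    {P : ZFSet.{u} → (ℕ → Ordinal.{u}) → Prop} (hP : DX P) (τ l μ κ : Ordinal.{u}) :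
    DX (ST t P τ l μ κ) := by
  refine DX.and (DX.o (DO.ltc 0 l)) (DX.and (dx_pos hDXP (dx_QT hDXD ht hP τ) μ κ) ?_)
  refine DX.allLt (S := fun ξ' x v => ¬ ∀ a < τ, (a ∈ dec t x ξ' ↔ a ∈ dec t x (v 0))) 0 ?_
  refine DX.not ?_
  refine DX.allLtc (S := fun a x v => (a ∈ dec t x (v 0) ↔ a ∈ dec t x (v 1))) τ ?_
  have h1 : DX fun x w => w 0 ∈ dec t x (w 1) := hDXD t ht
  have h2 : DX fun x w => w 0 ∈ dec t x (w 2) :=
    (hDXD t ht).ren fun n => if n = 0 then 0 else 2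
  exact h1.iff h2

theorem pc_eq {t : Ordinal.{u} → Ordinal.{u} → Ordinal.{u}}
    {P : ZFSet.{u} → (ℕ → Ordinal.{u}) → Prop} {τ ξ : Ordinal.{u}} {x : ZFSet.{u}}
    {w : ℕ → Ordinal.{u}} :
    {b | QT t P τ x (cns b (cns ξ w))} = pc (fam P x w) τ (dec t x ξ) := rfl

theorem core (hDXP : T_DXP.{u}) (hDXD : T_DXD.{u}) (en : Ordinal.{u} → ZFSet.{u})
    (t : Ordinal.{u} → Ordinal.{u} → Ordinal.{u}) (L : Cardinal.{u}) (hS : Stg.{u} en t L)
    (x : ZFSet.{u}) (hx : Cdd t L x) (m μ : Ordinal.{u})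
    (hFEW : ∀ P S, DX P → DX S → ∀ w : ℕ → Ordinal.{u},
      (∀ ξ, S x (cns ξ w) → Pos μ (succ L).ord (fam P x w ξ)) →
      (∀ ξ ξ' b, S x (cns ξ w) → S x (cns ξ' w) → b ∈ fam P x w ξ → b ∈ fam P x w ξ' → ξ = ξ') →
      Few m {ξ | S x (cns ξ w)})
    (P : ZFSet.{u} → (ℕ → Ordinal.{u}) → Prop) (hP : DX P) (w : ℕ → Ordinal.{u})
    (τ : Ordinal.{u}) (hτ : τ < L.ord) :
    ∃ S, DX S ∧ ∃ w' : ℕ → Ordinal.{u}, Few m {ξ | S x (cns ξ w')} ∧
      (∀ ξ, S x (cns ξ w') → ξ < L.ord ∧ Pos μ (succ L).ord (pc (fam P x w) τ (dec t x ξ))) ∧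
      (∀ ξ ξ' b, S x (cns ξ w') → S x (cns ξ' w') → b ∈ pc (fam P x w) τ (dec t x ξ) →
        b ∈ pc (fam P x w) τ (dec t x ξ') → ξ = ξ') ∧
      ¬ Pos μ (succ L).ord {b | ∀ ξ, S x (cns ξ w') → b ∉ pc (fam P x w) τ (dec t x ξ)} := by
  have hdis : ∀ ξ ξ' b, ST t P τ L.ord μ (succ L).ord x (cns ξ w) →
      ST t P τ L.ord μ (succ L).ord x (cns ξ' w) → b ∈ pc (fam P x w) τ (dec t x ξ) →
      b ∈ pc (fam P x w) τ (dec t x ξ') → ξ = ξ' := by
    intro ξ ξ' b h1 h2 h3 h4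
    rcases lt_trichotomy ξ ξ' with h | h | h
    · exact absurd (fun a ha => (h3 a ha).symm.trans (h4 a ha)) (h2.2.2 ξ h)
    · exact h
    · exact absurd (fun a ha => (h4 a ha).symm.trans (h3 a ha)) (h1.2.2 ξ' h)
  refine ⟨ST t P τ L.ord μ (succ L).ord, dx_ST hDXP hDXD hS.ht hP _ _ _ _, w, ?_, ?_, hdis, ?_⟩
  · exact hFEW (QT t P τ) (ST t P τ L.ord μ (succ L).ord) (dx_QT hDXD hS.ht hP τ)
      (dx_ST hDXP hDXD hS.ht hP _ _ _ _) w (fun ξ h => h.2.1) hdis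
  · exact fun ξ h => ⟨h.1, h.2.1⟩
  · classical
    intro hpos
    have h1 : ¬ Pos μ (succ L).ord {b | ∃ ξ < L.ord, b ∈ {b | b ∈ pc (fam P x w) τ (dec t x ξ) ∧
        ¬ Pos μ (succ L).ord (pc (fam P x w) τ (dec t x ξ))}} := by
      refine All.va μ _ (cof_succ_lt hS.unc) L.ord ?_ _ fun ξ hξ hp => ?_
      · rw [cof_succ hS.unc, card_ord]
        exact lt_succ L
      · by_cases hc : Pos μ (succ L).ord (pc (fam P x w) τ (dec t x ξ))
        · refine (?_ : ¬ Pos μ (succ L).ord (∅ : Set Ordinal.{u})) (Pos.mono' hp ?_)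
          · intro h
            refine All.va μ (succ L).ord (cof_succ_lt hS.unc) 0 ?_ (fun _ => ∅) ?_
              (Pos.mono' h ?_)
            · rw [Ordinal.card_zero]
              exact lt_of_le_of_lt zero_le (cof_succ_lt hS.unc)
            · intro i hi
              exact absurd hi not_lt_zero
            · intro b _ hb
              exact absurd hb (Set.notMem_empty b)
          · intro b _ hb
            exact absurd hc hb.2
        · exact hc (Pos.mono' hp fun b _ hb => hb.1)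
    refine h1 (Pos.mono' hpos fun b _ hb => ?_)
    -- the type of `b` has a least code
    have h2 : ∃ ξ, ∀ a < τ, (a ∈ dec t x ξ ↔ b ∈ fam P x w a) := by
      obtain ⟨ξ, -, h⟩ := hx.all τ hτ {a | b ∈ fam P x w a}
      exact ⟨ξ, h⟩
    have h3 : ∀ a < τ, (a ∈ dec t x (sInf {ξ | ∀ a < τ, (a ∈ dec t x ξ ↔ b ∈ fam P x w a)}) ↔
        b ∈ fam P x w a) := csInf_mem (s := {ξ | ∀ a < τ, (a ∈ dec t x ξ ↔ b ∈ fam P x w a)}) h2
    obtain ⟨ξ1, h4, h5⟩ := hx.all τ hτ {a | b ∈ fam P x w a}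
    have h6 : sInf {ξ | ∀ a < τ, (a ∈ dec t x ξ ↔ b ∈ fam P x w a)} ≤ ξ1 :=
      csInf_le' (s := {ξ | ∀ a < τ, (a ∈ dec t x ξ ↔ b ∈ fam P x w a)}) h5
    set ξ := sInf {ξ | ∀ a < τ, (a ∈ dec t x ξ ↔ b ∈ fam P x w a)} with hξ
    have h7 : b ∈ pc (fam P x w) τ (dec t x ξ) := fun a ha => (h3 a ha).symm
    refine ⟨ξ, h6.trans_lt h4, h7, fun hp => ?_⟩
    refine hb ξ ⟨h6.trans_lt h4, hp, fun ξ' hξ' hc => ?_⟩ h7
    refine absurd hξ' (not_lt.2 ?_)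
    exact csInf_le' (s := {ξ | ∀ a < τ, (a ∈ dec t x ξ ↔ b ∈ fam P x w a)}) fun a ha =>
      (hc a ha).trans (h3 a ha)

theorem pf_TYP (hDXP : T_DXP.{u}) (hDXD : T_DXD.{u}) (hFEW : T_FEW.{u}) : T_TYP.{u} := by
  intro en t L hS x hx M _ _ hspl P hP w τ hτ
  exact core hDXP hDXD en t L hS x hx M.ord w0 (hFEW en hS.hen _ x _ hspl) P hP w τ hτ

end Pool.Agent.H87.SD
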